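import Pool.Agent.Q175.PH.Int

/-! For every `m ≥ 3` there is a solution of `(-Δ)^m u = V e^{2mu}` in `ℝ^{2m}` with `V` bounded and
`e^{2mu}` integrable which is not essentially bounded from above. -/

set_option autoImplicit false

open MeasureTheory InnerProductSpace Laplacian
open scoped ContDiff

namespace Pool.Agent.Results.MP_885c89_an.UnboundedAbove

/-- `ℝ^{2m}` -/
abbrev R (m : ℕ) : Type := EuclideanSpace ℝ (Fin (2 * m))

/-- `(-Δ)^m φ`, for smooth `φ` -/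
noncomputable def polyLap (m : ℕ) (φ : R m → ℝ) (x : R m) : ℝ :=
  (-1) ^ m * ((fun f : R m → ℝ => Δ f)^[m] φ) x

/-- `u ∈ L¹_loc` satisfies `(-Δ)^m u = V e^{2mu}` in `ℝ^{2m}` in the sense of distributions, with
`V ∈ L^∞` and `e^{2mu} ∈ L¹`. -/
def IsSolution (m : ℕ) (V u : R m → ℝ) : Prop :=
  MemLp V ⊤ ∧ LocallyIntegrable u ∧ Integrable (fun x => Real.exp (2 * m * u x)) ∧
    ∀ φ : R m → ℝ, ContDiff ℝ ∞ φ → HasCompactSupport φ →
      ∫ x, u x * polyLap m φ x = ∫ x, V x * Real.exp (2 * m * u x) * φ x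

theorem result (m : ℕ) (hm : 3 ≤ m) :
    ∃ V u : R m → ℝ, ContDiff ℝ ∞ V ∧ HasCompactSupport V ∧ ContDiff ℝ ∞ u ∧
      IsSolution m V u ∧ ∀ M : ℝ, 0 < volume {x | M < u x} := by
  refine ⟨Q175.PH.VV hm, Q175.PH.uu hm, Q175.PH.VV_smooth hm, Q175.PH.VV_supp hm,
    Q175.PH.uu_smooth hm, ⟨?_, ?_, Q175.PH.exp_int hm, ?_⟩, Q175.PH.unbounded hm⟩
  · exact (Q175.PH.VV_smooth hm).continuous.memLp_of_hasCompactSupport (Q175.PH.VV_supp hm)
  · exact (Q175.PH.uu_smooth hm).continuous.locallyIntegrable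
  · intro φ hφ hc
    simp only [Q175.PH.VV_eq hm]
    exact Q175.PH.eqn hm hφ hc

end Pool.Agent.Results.MP_885c89_an.UnboundedAbove
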